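import Pool.Agent.TH540.SavChen3

/-!
# Hartshorne's conjecture for Fermat hypersurfaces

Let `X` be the Fermat hypersurface `x_1 ^ d + ... + x_{n+2} ^ d = 0` of dimension `n` over the complex
numbers. Its Chow motive (with coefficients in the field of `d`-th roots of unity) is the sum of the
powers `L ^ j`, `0 ≤ j ≤ n`, of the Lefschetz motive and of motives `V(a)`, where
`a : Fin (n + 2) → ZMod d` has nonzero values and sum zero (`IsCharacter`). By Shioda and Katsura, if the
index set is a union of `i ≥ 1` nonempty blocks on which `a` has sum zero, then `V(a)` is `M(1 - i)`,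
where `M` is a direct summand of the motive of a product `Y` of `i` Fermat varieties, of total
dimension `n - 2 i + 2`, and the cohomology of `M` is in degree `n - 2 i + 2`. So
`A ^ i (V(a)) = A ^ 1 (M)`, and if `2 i < n` then `n - 2 i + 2 > 2` and `A ^ 1 (M) = 0`, because a projector
which is zero on `H ^ 1 (Y)` and `H ^ 2 (Y)` acts as zero on the divisor classes. Hence
`A ^ i (X) = ℚ h ^ i` if all `a` have this property and `2 i < n`.

The theorem determines when they do.
-/

namespace Pool.Agent.Results.MP_4be043_ag.FermatHypersurfaces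

open TH540.SC

/-- `a` is a character of the primitive cohomology of the Fermat hypersurface of degree `d` in `N`
variables. -/
def IsCharacter (d N : ℕ) (a : Fin N → ZMod d) : Prop := (∀ i, a i ≠ 0) ∧ ∑ i, a i = 0

/-- The index set is a union of `k` nonempty disjoint blocks on which `a` has sum zero. -/
def HasBlocks (d N k : ℕ) (a : Fin N → ZMod d) : Prop :=
  ∃ f : Fin N → ℕ, (∀ i, f i < k) ∧ ∀ j < k, (∃ i, f i = j) ∧ ∑ i with f i = j, a i = 0

lemma exists_fun {d N : ℕ} (s : Multiset (ZMod d)) (hs : Multiset.card s = N) :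
    ∃ a : Fin N → ZMod d, (Finset.univ : Finset (Fin N)).val.map a = s := by
  obtain ⟨l, rfl⟩ := Quot.exists_rep s
  change l.length = N at hs
  subst hs
  refine ⟨l.get, ?_⟩
  rw [Fin.univ_val_map, List.ofFn_get]
  rfl

/-- there is a character with the smallest possible height -/
lemma exists_line {m n κ : ℕ} [NeZero m] (hm : 3 ≤ m) (hn : 2 ≤ n) (h1 : m * κ < n + m)
    (h2 : n ≤ m * κ) : ∃ s : Multiset (ZMod m), Multiset.card s = n ∧ (0 : ZMod m) ∉ s ∧
      s.sum = 0 ∧ ht s = m * κ := by
  have key : ∀ s : Multiset (ZMod m), Multiset.card s = n → (0 : ZMod m) ∉ s →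
      ht s = m * κ → ∃ s : Multiset (ZMod m), Multiset.card s = n ∧ (0 : ZMod m) ∉ s ∧
      s.sum = 0 ∧ ht s = m * κ := by
    intro s a1 a2 a3
    refine ⟨s, a1, a2, ?_, a3⟩
    rw [← cast_ht, a3]
    simp
  have hone : (1 : ZMod m).val = 1 := by
    have := ZMod.val_natCast_of_lt (n := m) (a := 1) (by omega)
    simpa using this
  have hone0 : (0 : ZMod m) ≠ 1 := by
    intro h
    rw [← h, ZMod.val_zero] at hone
    omega
  have hrep : ∀ k : ℕ, ((Multiset.replicate k (1 : ZMod m)).map ZMod.val).sum = k := by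
    intro k
    rw [Multiset.map_replicate, hone, Multiset.sum_replicate, smul_eq_mul, mul_one]
  obtain ⟨δ, hδ⟩ : ∃ δ, n + δ = m * κ := ⟨m * κ - n, by omega⟩
  by_cases hδm : δ + 1 < m
  · have e1 : ((1 + δ : ℕ) : ZMod m).val = 1 + δ := ZMod.val_natCast_of_lt (by omega)
    refine key (((1 + δ : ℕ) : ZMod m) ::ₘ Multiset.replicate (n - 1) 1) ?_ ?_ ?_
    · rw [Multiset.card_cons, Multiset.card_replicate]; omega
    · rw [Multiset.mem_cons, not_or]
      refine ⟨fun h => ?_, fun h => hone0 (Multiset.eq_of_mem_replicate h)⟩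
      rw [← h, ZMod.val_zero] at e1
      omega
    · unfold ht
      rw [Multiset.map_cons, Multiset.sum_cons, hrep, e1]
      omega
  · have e1 : ((m - 1 : ℕ) : ZMod m).val = m - 1 := ZMod.val_natCast_of_lt (by omega)
    have e2 : ((2 : ℕ) : ZMod m).val = 2 := ZMod.val_natCast_of_lt (by omega)
    refine key (((m - 1 : ℕ) : ZMod m) ::ₘ ((2 : ℕ) : ZMod m) ::ₘ
      Multiset.replicate (n - 2) 1) ?_ ?_ ?_
    · rw [Multiset.card_cons, Multiset.card_cons, Multiset.card_replicate]; omega
    · rw [Multiset.mem_cons, not_or, Multiset.mem_cons, not_or]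
      refine ⟨fun h => ?_, fun h => ?_, fun h => hone0 (Multiset.eq_of_mem_replicate h)⟩
      · rw [← h, ZMod.val_zero] at e1
        omega
      · rw [← h, ZMod.val_zero] at e2
        omega
    · unfold ht
      rw [Multiset.map_cons, Multiset.sum_cons, Multiset.map_cons, Multiset.sum_cons, hrep, e1, e2]
      omega

theorem result (d n i : ℕ) (hd : 3 ≤ d) (hi : 1 ≤ i) :
    (∀ a, IsCharacter d (n + 2) a → HasBlocks d (n + 2) i a) ↔ d * (i - 1) < n + 2 := by
  have hz : NeZero d := ⟨by omega⟩
  obtain ⟨c, rfl⟩ : ∃ c, i = c + 1 := ⟨i - 1, by omega⟩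
  rw [Nat.add_sub_cancel]
  constructor
  · intro h
    by_contra hlt
    -- the smallest possible height
    obtain ⟨κ, k1, k2, k3⟩ : ∃ κ, d * κ < n + 2 + d ∧ n + 2 ≤ d * κ ∧ κ ≤ c := by
      refine ⟨(n + 2 + d - 1) / d, ?_, ?_, ?_⟩
      · have := Nat.mul_div_le (n + 2 + d - 1) d
        omega
      · have := Nat.lt_mul_div_succ (n + 2 + d - 1) (b := d) (by omega)
        rw [mul_add, mul_one] at this
        omega
      · rw [Nat.div_le_iff_le_mul_add_pred (by omega)]
        omega
    obtain ⟨s, s1, s2, s3, s4⟩ := exists_line hd (by omega) k1 k2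
    obtain ⟨a, ha⟩ := exists_fun s s1
    have h0 : ∀ j, a j ≠ 0 := by
      intro j hj
      apply s2
      rw [← ha, ← hj]
      exact Multiset.mem_map_of_mem a (Finset.mem_univ j)
    have hs : ∑ j, a j = 0 := by
      change ((Finset.univ : Finset (Fin (n + 2))).val.map a).sum = 0
      rw [ha, s3]
    obtain ⟨f, f1, f2⟩ := h a ⟨h0, hs⟩
    have h3 := blocks_height (c := c) h0 f (fun j => Nat.le_of_lt_succ (f1 j))
      (fun j hj => f2 j (Nat.lt_succ_of_le hj))
    have h4 : ∑ j, (a j).val = d * κ := by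
      rw [← s4, ← ha]
      unfold ht
      rw [Multiset.map_map]
      rfl
    rw [h4] at h3
    have := Nat.le_of_mul_le_mul_left h3 (by omega)
    omega
  · rintro h a ⟨h0, hs⟩
    have h2 : ((Finset.univ : Finset (Fin (n + 2))).val.map a).sum = 0 := hs
    have h3 : Multiset.card ((Finset.univ : Finset (Fin (n + 2))).val.map a) = n + 2 := by
      rw [Multiset.card_map]
      simp
    obtain ⟨P, p1, p2, p3⟩ := TH540.exists_split c _ h2 (by rw [h3]; exact h)
    obtain ⟨f, f1, f2⟩ := blocks_of_splits a (c + 1) Finset.univ ⟨P, p1, p2, p3⟩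
    refine ⟨f, fun j => f1 j (Finset.mem_univ j), fun j hj => ?_⟩
    obtain ⟨⟨k, _, hk⟩, g⟩ := f2 j hj
    exact ⟨⟨k, hk⟩, g⟩

end Pool.Agent.Results.MP_4be043_ag.FermatHypersurfaces
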