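import Pool.Agent.TH439.HC1

/-!
# Hartshorne's conjecture on Chow groups of hypersurfaces: reduction to the codimensions next to the
middle

Fix the degree `d` and a bound `I`. The conjecture says that on a smooth hypersurface `X` of degree
`d` in the complex projective space of dimension `n + 1` every cycle of codimension `i < n / 2` is,
modulo rational equivalence and with rational coefficients, a multiple of the power `h ^ i` of the
class of a hyperplane section.

Suppose that one of the following holds:

* (a) the conjecture holds for the cycles of codimension `i` on the smooth hypersurfaces of degree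
  `d` and of dimension exactly `2 i + 1`, for `2 ≤ i ≤ I`;
* (b) homologically trivial cycles of codimension `i` on the smooth hypersurfaces of degree `d` and
  of dimension exactly `2 i` are rationally equivalent to zero, for `2 ≤ i ≤ I`.

Then the conjecture holds for all smooth hypersurfaces of degree `d`, of any dimension, in all
codimensions `i ≤ I`; and the same is true for the hypersurfaces with one ordinary double point of
dimension greater than `2 i + 1`.

Unconditionally, a cycle of codimension two on a smooth hypersurface of dimension at least five is a
multiple of `h ^ 2` if its restrictions to the smooth hyperplane sections are.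

For example, for `I = 2` only the codimension two cycles on fivefolds have to be considered, or only
those on fourfolds which are homologically trivial.

The hypersurfaces are given by their equations. The Chow groups enter through `Cycles.IsChow`, which
lists the classical facts which are used.
-/

set_option autoImplicit false

universe u

namespace Pool.Agent.Results.MP_4be043_ag.NearMiddleSuffices

open Pool.Agent.TH439.HC

/-- **Reduction of Hartshorne's conjecture to the cycles of codimension `i` on the hypersurfaces of
dimension `2 i + 1`, and to the injectivity of the cycle map on the cycles of codimension `i` on the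
hypersurfaces of dimension `2 i`.** -/
theorem result (d : ℕ) (T : Cycles.{u} d) (hT : T.IsChow) :
    (∀ I : ℕ,
      ((∀ i ≤ I, 2 ≤ i → ∀ X : Hyp d (2 * i + 1), X.Smooth → T.Trivial X i) ∨
        (∀ i ≤ I, 2 ≤ i → ∀ X : Hyp d (2 * i), X.Smooth → T.Hom X i = ⊥)) →
      ∀ i ≤ I, ∀ (n : ℕ) (X : Hyp d n),
        (X.Smooth ∧ 2 * i < n) ∨ (X.AtMostOneNode ∧ 2 * i + 1 < n) → T.Trivial X i) ∧
    ∀ (n : ℕ) (X : Hyp d (n + 1)), 4 ≤ n → X.Smooth → ∀ a : T.A X 2,
      (∀ (Y : Hyp d n) (s : Sec X Y), Y.Smooth → ∃ c : ℚ, T.res s 2 a = c • T.h Y 2) →
        ∃ c : ℚ, a = c • T.h X 2 := by
  refine ⟨?_, ?_⟩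
  · rintro I (h | h)
    · exact good_of_base hT I h
    · exact good_of_hom hT I h
  · intro n X hn hX a ha
    have h1 : Good T 1 := good_of_base hT 1 (fun i hi h2 => absurd h2 (by omega)) 1 le_rfl
    exact detect hT (i := 1) (by omega) hX.atMostOneNode
      (fun Y hY => h1 n Y (Or.inr ⟨hY, by omega⟩)) ha

end Pool.Agent.Results.MP_4be043_ag.NearMiddleSuffices
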